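import Mathlib
import Pool.Agent.Q91.MS.Spec

/-!
# A mirror symmetric dimension spectrum which is not an interval
-/

open Set Filter Topology MeasureTheory
open scoped ENNReal NNReal

namespace Pool.Agent.Results.MP_5d65a3_an.MirrorPair

/-- A conformal iterated function system on the line (`d = 1`): countable alphabet `E`, seed set
`X`, open set `V`, maps `u a`, `a ∈ E`; the composition along the finite word `w` is
`fun z => w.foldr u z`. The maps are required to be of class `C^∞` on `V`. -/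
structure IsCIFS {E : Type} (X V : Set ℝ) (u : E → ℝ → ℝ) : Prop where
  countable : Countable E
  nonempty : X.Nonempty
  compact : IsCompact X
  closure_interior : closure (interior X) = X
  mapsTo : ∀ a, MapsTo (u a) X X
  V_open : IsOpen V
  V_connected : IsConnected V
  V_bounded : Bornology.IsBounded V
  X_subset_V : X ⊆ V
  dist_pos : ∃ δ > 0, ∀ x ∈ X, ∀ y ∉ V, δ ≤ dist x y
  conformal : ∀ a, MapsTo (u a) V V ∧ InjOn (u a) V ∧ IsOpen (u a '' V) ∧
    ContDiffOn ℝ (⊤ : ℕ∞) (u a) V ∧ ∀ x ∈ V, deriv (u a) x ≠ 0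
  cone : ∃ c > 0, ∀ x ∈ X, ∀ r : ℝ, 0 < r → r < 1 →
    ENNReal.ofReal (c * r) ≤ volume (X ∩ Metric.ball x r)
  open_set : ∀ a b, a ≠ b → Disjoint (u a '' interior X) (u b '' interior X)
  contraction : ∃ κ < 1, ∀ a, ∀ x ∈ V, |deriv (u a) x| ≤ κ
  vanishing : ∀ ε > 0, {a | ∃ x ∈ V, ε ≤ |deriv (u a) x|}.Finite
  distortion : ∃ C ≥ 1, ∀ w : List E, ∀ x ∈ V, ∀ y ∈ V,
    |deriv (fun z => w.foldr u z) x| ≤ C * |deriv (fun z => w.foldr u z) y|

/-- The limit set `Λ_A = π(A^ℕ)`, `π(ω) = lim u_{ω_1 ⋯ ω_n}(x₀)` for all `x₀ ∈ X`. -/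
def limitSet {E : Type} (X : Set ℝ) (u : E → ℝ → ℝ) (A : Set E) : Set ℝ :=
  {x | ∃ ω : ℕ → E, (∀ n, ω n ∈ A) ∧
    ∀ x₀ ∈ X, Tendsto (fun n => ((List.range n).map ω).foldr u x₀) atTop (𝓝 x)}

/-- The dimension spectrum. -/
def spectrum {E : Type} (X : Set ℝ) (u : E → ℝ → ℝ) : Set ℝ :=
  {x | ∃ A : Set E, x = (dimH (limitSet X u A)).toReal}

open Q91.MS Q91.ExpSys

lemma foldr_eq {E : Type} (u : E → ℝ → ℝ) (ω : ℕ → E) (n : ℕ) (x : ℝ) :
    ((List.range n).map ω).foldr u x = cmp u ω n x := by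
  induction n generalizing x with
  | zero => rfl
  | succ n ih =>
    rw [List.range_succ, List.map_append, List.foldr_append, cmp_succ, ← ih]
    rfl

lemma limitSet_eq (A : Par) (B : Set (Bool ⊕ ℕ)) :
    limitSet (Icc 0 1) A.u B = Q91.ExpSys.limitSet A.u (Icc 0 1) B := by
  have hmap : ∀ i, MapsTo (A.u i) (Icc 0 1) (Icc 0 1) := A.markov.mapsTo
  have hmapc : ∀ (ω : ℕ → Bool ⊕ ℕ) n, MapsTo (cmp A.u ω n) (Icc 0 1) (Icc 0 1) :=
    fun ω n => cmp_mapsTo' A.markov ω n
  have hanti : ∀ ω : ℕ → Bool ⊕ ℕ, Antitone fun n => cmp A.u ω n '' Icc (0 : ℝ) 1 := by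
    intro ω
    refine antitone_nat_of_succ_le fun n => ?_
    rintro _ ⟨x, hx, rfl⟩
    exact ⟨A.u (ω n) x, hmap _ hx, rfl⟩
  have hcont : ∀ (ω : ℕ → Bool ⊕ ℕ) n, Continuous (cmp A.u ω n) := by
    intro ω n
    induction n with
    | zero => exact continuous_id
    | succ n ih => exact ih.comp (A.continuous_u _)
  ext x
  constructor
  · rintro ⟨ω, h1, h2⟩
    refine ⟨ω, h1, fun m => ?_⟩
    have h3 := h2 0 (by simp)
    simp only [foldr_eq] at h3
    refine (isCompact_Icc.image (hcont ω m)).isClosed.mem_of_tendsto h3 ?_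
    filter_upwards [eventually_ge_atTop m] with n hn
    exact hanti ω hn ⟨0, by simp, rfl⟩
  · rintro ⟨ω, h1, h2⟩
    refine ⟨ω, h1, fun x₀ hx₀ => ?_⟩
    simp only [foldr_eq]
    rw [tendsto_iff_dist_tendsto_zero]
    have h3 : ∀ n, dist (cmp A.u ω n x₀) x ≤ (1 / 100 : ℝ) ^ n := by
      intro n
      obtain ⟨y, hy, hyx⟩ := h2 n
      rw [← hyx]
      have h4 := dist_cmp_le (s := A.u) (K := Icc 0 1) (r := fun _ => 1 / 100)
        (fun _ => by norm_num) hmap
        (fun e x _ y _ => (A.dist_u_le e x y).trans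
          (mul_le_mul_of_nonneg_right (A.hi_le e) dist_nonneg)) ω n hx₀ hy
      rw [Finset.prod_const, Finset.card_range] at h4
      refine h4.trans ?_
      have h5 : dist x₀ y ≤ 1 := by
        rw [Real.dist_eq, abs_le]
        constructor <;> linarith [hx₀.1, hx₀.2, hy.1, hy.2]
      calc (1 / 100 : ℝ) ^ n * dist x₀ y ≤ (1 / 100 : ℝ) ^ n * 1 :=
            mul_le_mul_of_nonneg_left h5 (by positivity)
        _ = _ := mul_one _
    exact squeeze_zero (fun _ => dist_nonneg) h3
      (tendsto_pow_atTop_nhds_zero_of_lt_one (by norm_num) (by norm_num))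

/-- The derivatives of the compositions. -/
noncomputable def Dw (A : Par) : List (Bool ⊕ ℕ) → ℝ → ℝ
  | [], _ => 1
  | [i], x => A.D i x
  | i :: j :: w, x => A.M i j * Dw A (j :: w) x

lemma foldr_mem (A : Par) (i : Bool ⊕ ℕ) (w : List (Bool ⊕ ℕ)) {x : ℝ} (hx : x ∈ Ioo (-1 : ℝ) 2) :
    (i :: w).foldr A.u x ∈ Par.Im i := by
  induction w generalizing i with
  | nil => exact A.u_mem_Im i hx
  | cons j w ih =>
    have h1 := Par.Im_subset j (ih j)
    exact A.u_mem_Im i ⟨by linarith [h1.1], by linarith [h1.2]⟩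

lemma hasDerivAt_foldr (A : Par) (w : List (Bool ⊕ ℕ)) {x : ℝ} (hx : x ∈ Ioo (-1 : ℝ) 2) :
    HasDerivAt (fun z => w.foldr A.u z) (Dw A w x) x := by
  induction w with
  | nil => exact hasDerivAt_id x
  | cons i w ih =>
    cases w with
    | nil => exact A.hasDerivAt_u i x
    | cons j w =>
      have h1 := foldr_mem A j w hx
      have h2 := (A.hasDerivAt_u i ((j :: w).foldr A.u x)).comp x ih
      rw [A.D_eq i j (Par.Im_subset_J j h1)] at h2
      exact h2

lemma Dw_pos (A : Par) (w : List (Bool ⊕ ℕ)) (x : ℝ) : 0 < Dw A w x := by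
  induction w with
  | nil => exact one_pos
  | cons i w ih =>
    cases w with
    | nil => exact A.D_pos i x
    | cons j w => exact mul_pos (A.M_pos i j) ih

lemma one_le_C (A : Par) : 1 ≤ 1 / (100 * A.m) := by
  have h1 := A.m_pos
  have h2 := A.m_le_P.trans A.P1
  rw [le_div_iff₀ (by linarith)]
  linarith

lemma Dw_le (A : Par) (w : List (Bool ⊕ ℕ)) (x y : ℝ) :
    Dw A w x ≤ 1 / (100 * A.m) * Dw A w y := by
  have hC := one_le_C A
  have hm := A.m_pos
  induction w with
  | nil => simpa [Dw] using hC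
  | cons i w ih =>
    cases w with
    | nil =>
      rcases i with b | t
      · have h1 : A.D (.inl b) x ≤ 1 / 100 := A.D_le_hi (.inl b) x
        have h2 : A.m ≤ A.D (.inl b) y := A.lo_le_D (.inl b) y
        calc A.D (.inl b) x ≤ 1 / 100 := h1
          _ = 1 / (100 * A.m) * A.m := by field_simp
          _ ≤ _ := mul_le_mul_of_nonneg_left h2 (by positivity)
      · change A.ρ t ≤ 1 / (100 * A.m) * A.ρ t
        have := A.ρ0 t
        nlinarith
    | cons j w =>
      change A.M i j * Dw A (j :: w) x ≤ 1 / (100 * A.m) * (A.M i j * Dw A (j :: w) y)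
      rw [mul_left_comm]
      exact mul_le_mul_of_nonneg_left ih (A.M_pos i j).le

/-- The system is a conformal iterated function system. -/
theorem isCIFS (A : Par) : IsCIFS (Icc 0 1) (Ioo (-1) 2) A.u where
  countable := inferInstance
  nonempty := ⟨0, by simp⟩
  compact := isCompact_Icc
  closure_interior := by rw [interior_Icc, closure_Ioo zero_ne_one]
  mapsTo := A.markov.mapsTo
  V_open := isOpen_Ioo
  V_connected := isConnected_Ioo (by norm_num)
  V_bounded := Metric.isBounded_Ioo _ _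
  X_subset_V := fun x hx => Par.mem_V hx
  dist_pos := by
    refine ⟨1, one_pos, fun x hx y hy => ?_⟩
    rw [mem_Ioo, not_and_or, not_lt, not_lt] at hy
    rw [Real.dist_eq, le_abs]
    rcases hy with hy | hy
    · left; linarith [hx.1]
    · right; linarith [hx.2]
  conformal := by
    intro a
    refine ⟨fun x hx => ?_, (A.strictMono_u a).injective.injOn, ?_, (A.contDiff_u a).contDiffOn,
      fun x _ => ?_⟩
    · have h1 := Par.Im_subset a (A.u_mem_Im a hx)
      exact ⟨by linarith [h1.1], by linarith [h1.2]⟩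
    · have hopen : IsOpenMap (A.u a) := by
        rw [isOpenMap_iff_nhds_le]
        intro x
        have h1 : HasStrictDerivAt (A.u a) (deriv (A.u a) x) x :=
          (A.contDiff_u a).contDiffAt.hasStrictDerivAt (by simp)
        rw [(A.hasDerivAt_u a x).deriv] at h1
        exact (h1.map_nhds_eq (A.D_pos a x).ne').ge
      exact hopen _ isOpen_Ioo
    · rw [(A.hasDerivAt_u a x).deriv]
      exact (A.D_pos a x).ne'
  cone := by
    refine ⟨1 / 2, by norm_num, fun x hx r hr0 hr1 => ?_⟩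
    rcases le_total x (1 / 2) with h | h
    · have h1 : Ioo x (x + 1 / 2 * r) ⊆ Icc 0 1 ∩ Metric.ball x r := by
        intro y hy
        refine ⟨⟨by linarith [hx.1, hy.1], by linarith [hy.2]⟩, ?_⟩
        rw [Metric.mem_ball, Real.dist_eq, abs_lt]
        constructor <;> linarith [hy.1, hy.2]
      refine le_trans ?_ (measure_mono h1)
      rw [Real.volume_Ioo]
      exact ENNReal.ofReal_le_ofReal (by linarith)
    · have h1 : Ioo (x - 1 / 2 * r) x ⊆ Icc 0 1 ∩ Metric.ball x r := by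
        intro y hy
        refine ⟨⟨by linarith [hy.1], by linarith [hx.2, hy.2]⟩, ?_⟩
        rw [Metric.mem_ball, Real.dist_eq, abs_lt]
        constructor <;> linarith [hy.1, hy.2]
      refine le_trans ?_ (measure_mono h1)
      rw [Real.volume_Ioo]
      exact ENNReal.ofReal_le_ofReal (by linarith)
  open_set := by
    intro a b hab
    refine (Par.Im_disj hab).mono ?_ ?_
    · rintro _ ⟨x, hx, rfl⟩
      exact A.u_mem_Im a (Par.mem_V (interior_subset hx))
    · rintro _ ⟨x, hx, rfl⟩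
      exact A.u_mem_Im b (Par.mem_V (interior_subset hx))
  contraction := by
    refine ⟨1 / 100, by norm_num, fun a x _ => ?_⟩
    rw [(A.hasDerivAt_u a x).deriv, abs_of_pos (A.D_pos a x)]
    exact (A.D_le_hi a x).trans (A.hi_le a)
  vanishing := by
    intro ε hε
    have h1 : Tendsto (fun t : ℕ => (1 / 2 : ℝ) ^ t / 200) atTop (𝓝 0) := by
      simpa using (tendsto_pow_atTop_nhds_zero_of_lt_one (r := (1 / 2 : ℝ)) (by norm_num)
        (by norm_num)).div_const 200
    obtain ⟨T, hT⟩ := (h1.eventually (gt_mem_nhds hε)).exists_forall_of_atTop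
    refine ((Set.finite_range (Sum.inl : Bool → Bool ⊕ ℕ)).union
      ((Set.finite_lt_nat T).image Sum.inr)).subset ?_
    rintro (b | t) ⟨x, -, hx⟩
    · exact Or.inl ⟨b, rfl⟩
    · right
      refine ⟨t, ?_, rfl⟩
      rw [(A.hasDerivAt_u _ x).deriv, abs_of_pos (A.D_pos _ x)] at hx
      by_contra h
      have h2 : T ≤ t := by simpa using h
      have h3 := hT t h2
      have h4 := A.ρ1 t
      have h5 : ε ≤ A.ρ t := hx
      linarith
  distortion := by
    refine ⟨1 / (100 * A.m), one_le_C A, fun w x hx y hy => ?_⟩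
    rw [(hasDerivAt_foldr A w hx).deriv, (hasDerivAt_foldr A w hy).deriv,
      abs_of_pos (Dw_pos A w x), abs_of_pos (Dw_pos A w y)]
    exact Dw_le A w x y

/-- **Theorem.** There is an infinite conformal iterated function system on the line whose
dimension spectrum is `[0, a] ∪ [b, a + b]` with `0 < a < b`; this spectrum is its own mirror
image, and it is not of the form `[0, λ]`. -/
theorem result : ∃ (E : Type) (X V : Set ℝ) (u : E → ℝ → ℝ) (a b : ℝ), Infinite E ∧
    IsCIFS X V u ∧ 0 < a ∧ a < b ∧ spectrum X u = Icc 0 a ∪ Icc b (a + b) ∧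
    (fun x => sSup (spectrum X u) - x) '' spectrum X u = spectrum X u ∧
    ∀ l : ℝ, spectrum X u ≠ Icc 0 l := by
  obtain ⟨c⟩ := exists_cfg
  have hN := c.N_pos
  have ha : (0 : ℝ) < 1 / c.N := by positivity
  have hab : (1 / c.N : ℝ) < 2 / c.N := by
    rw [div_lt_div_iff_of_pos_right hN]; norm_num
  obtain ⟨a, haa⟩ : ∃ a : ℝ, a = 1 / c.N := ⟨_, rfl⟩
  obtain ⟨b, hbb⟩ : ∃ b : ℝ, b = 2 / c.N := ⟨_, rfl⟩
  have hspec : spectrum (Icc 0 1) c.par.u = Icc 0 a ∪ Icc b (a + b) := by
    rw [haa, hbb, ← c.spectrum]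
    unfold spectrum
    simp only [limitSet_eq]
    rfl
  rw [← haa] at ha hab
  rw [← hbb] at hab
  have hsup : sSup (spectrum (Icc 0 1) c.par.u) = a + b := by
    rw [hspec]
    apply IsGreatest.csSup_eq
    refine ⟨Or.inr ⟨by linarith, le_rfl⟩, ?_⟩
    rintro x (hx | hx)
    · linarith [hx.2]
    · exact hx.2
  refine ⟨Bool ⊕ ℕ, Icc 0 1, Ioo (-1) 2, c.par.u, a, b, inferInstance, isCIFS c.par, ha, hab,
    hspec, ?_, ?_⟩
  · rw [hsup, hspec]
    ext x
    constructor
    · rintro ⟨y, hy | hy, rfl⟩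
      · exact Or.inr ⟨by simp only; linarith [hy.2], by simp only; linarith [hy.1]⟩
      · exact Or.inl ⟨by simp only; linarith [hy.2], by simp only; linarith [hy.1]⟩
    · rintro (hx | hx)
      · exact ⟨a + b - x, Or.inr ⟨by linarith [hx.2], by linarith [hx.1]⟩, by simp only; ring⟩
      · exact ⟨a + b - x, Or.inl ⟨by linarith [hx.2], by linarith [hx.1]⟩, by simp only; ring⟩
  · intro l hl
    rw [hspec] at hl
    have h1 : a + b ∈ Icc 0 l := by
      rw [← hl]; exact Or.inr ⟨by linarith, le_rfl⟩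
    have h2 : (a + b) / 2 ∈ Icc 0 l := ⟨by linarith, by linarith [h1.2]⟩
    rw [← hl] at h2
    rcases h2 with h2 | h2
    · linarith [h2.2]
    · linarith [h2.1]

end Pool.Agent.Results.MP_5d65a3_an.MirrorPair
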